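import Pool.Agent.H37.CTN.Stmts
import Pool.Agent.H37.CND.Base

/-!
# Denominators of conductors: row MO3 of the board ctn
-/

set_option autoImplicit false

namespace Pool.CND

open Finset

namespace MO3

variable {k L : Type} [Field k] [Field L] [Algebra k L] {P : Place k L}

theorem prod_congr_ge {ι : Type} (s : Finset ι) (a b : ι → L) (B : ℤ)
    (ha : ∀ i ∈ s, P.Ge (a i) 0) (hb : ∀ i ∈ s, P.Ge (b i) 0)
    (hab : ∀ i ∈ s, P.Ge (a i - b i) B) :
    P.Ge (∏ i ∈ s, a i) 0 ∧ P.Ge (∏ i ∈ s, b i) 0 ∧ P.Ge (∏ i ∈ s, a i - ∏ i ∈ s, b i) B := by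
  classical
  induction s using Finset.induction_on with
  | empty =>
    have h1 : P.Ge (1 : L) 0 := Or.inr (le_of_eq P.ord_one.symm)
    refine ⟨by simpa using h1, by simpa using h1, ?_⟩
    simpa using P.ge_zero B
  | insert i s hi ih =>
    obtain ⟨h1, h2, h3⟩ := ih (fun j hj => ha j (Finset.mem_insert_of_mem hj))
      (fun j hj => hb j (Finset.mem_insert_of_mem hj))
      (fun j hj => hab j (Finset.mem_insert_of_mem hj))
    have ai := ha i (Finset.mem_insert_self i s)
    have bi := hb i (Finset.mem_insert_self i s)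
    have di := hab i (Finset.mem_insert_self i s)
    rw [Finset.prod_insert hi, Finset.prod_insert hi]
    refine ⟨by simpa using P.ge_mul ai h1, by simpa using P.ge_mul bi h2, ?_⟩
    have e : a i * ∏ i ∈ s, a i - b i * ∏ i ∈ s, b i
        = a i * (∏ i ∈ s, a i - ∏ i ∈ s, b i) + (a i - b i) * ∏ i ∈ s, b i := by ring
    rw [e]
    exact P.ge_add (by simpa using P.ge_mul ai h3) (by simpa using P.ge_mul di h2)

theorem ge_pow {x : L} (h : P.Ge x 0) (n : ℕ) : P.Ge (x ^ n) 0 := by
  induction n with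
  | zero => exact Or.inr (by simpa using le_of_eq P.ord_one.symm)
  | succ n ih => rw [pow_succ]; simpa using P.ge_mul ih h

theorem pow_congr_ge {x y : L} {B : ℤ} (hx : P.Ge x 0) (hy : P.Ge y 0) (h : P.Ge (x - y) B)
    (n : ℕ) : P.Ge (x ^ n - y ^ n) B := by
  have := (prod_congr_ge (P := P) (Finset.range n) (fun _ => x) (fun _ => y) B
    (fun _ _ => hx) (fun _ _ => hy) (fun _ _ => h)).2.2
  simpa using this

end MO3

open MO3 in
theorem mo3_thm : S_MO3 := by
  intro k L _ _ _ P q s v w B hq hB hv hw hvw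
  have hd : ∀ i, P.Ge (v i - w i) B := by
    intro i
    rcases hvw i with h | h
    · rw [h, sub_self]; exact P.ge_zero B
    · exact Or.inr h
  have key : P.Ge (Mo q s v - Mo q s w) B := by
    unfold Mo
    rw [Matrix.det_apply, Matrix.det_apply, ← Finset.sum_sub_distrib]
    refine P.ge_sum _ _ _ fun σ _ => ?_
    have h := (prod_congr_ge (P := P) (Finset.univ : Finset (Fin s))
      (fun i => (Matrix.of fun i j : Fin s => v j ^ q ^ (i : ℕ)) (σ i) i)
      (fun i => (Matrix.of fun i j : Fin s => w j ^ q ^ (i : ℕ)) (σ i) i) B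
      (fun i _ => ge_pow (hv i) _) (fun i _ => ge_pow (hw i) _)
      (fun i _ => pow_congr_ge (hv i) (hw i) (hd i) _)).2.2
    rcases Int.units_eq_one_or (Equiv.Perm.sign σ) with hs | hs
    · rw [hs]; simpa using h
    · rw [hs]
      have := P.ge_neg h
      rw [neg_sub] at this
      rw [Units.neg_smul, one_smul, Units.neg_smul, one_smul]
      rw [sub_eq_add_neg, neg_neg, neg_add_eq_sub]
      exact this
  rcases key with h | h
  · exact Or.inl (sub_eq_zero.1 h)
  · exact Or.inr h

end Pool.CND
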